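import Pool.Agent.MP_b86f6c_nt.KnE

/-!
Real numbers with `wₙ = max n τ` in all degrees up to `n₀` and all later exponents `wₙ` prescribed.
-/

namespace Pool.Agent.Results.MP_b86f6c_nt.FreeStart

theorem result (n₀ : ℕ) (h₀ : 1 ≤ n₀) (τ : ℝ) (hτ : 1 ≤ τ) (w : ℕ → EReal)
    (h1 : ∀ n : ℕ, 1 ≤ n → n ≤ n₀ → w n = ((max (n : ℝ) τ : ℝ) : EReal))
    (hm : ∀ n : ℕ, 1 ≤ n → w n ≤ w (n + 1))
    (hb : ∀ n : ℕ, n₀ < n → ((32 * ((n : ℝ) + 1) ^ 3 : ℝ) : EReal) ≤ w n) :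
    ¬ Set.Countable {ξ : ℝ | Transcendental ℤ ξ ∧ ∀ n : ℕ, 1 ≤ n → ∀ v : ℝ,
      ((v : EReal) < w n →
        {P : Polynomial ℤ | P.natDegree ≤ n ∧ Polynomial.aeval ξ P ≠ 0 ∧
          |Polynomial.aeval ξ P| ≤
            ((P.support.sup (fun i => (P.coeff i).natAbs) : ℕ) : ℝ) ^ (-v)}.Infinite) ∧
      (w n < (v : EReal) →
        {P : Polynomial ℤ | P.natDegree ≤ n ∧ Polynomial.aeval ξ P ≠ 0 ∧
          |Polynomial.aeval ξ P| ≤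
            ((P.support.sup (fun i => (P.coeff i).natAbs) : ℕ) : ℝ) ^ (-v)}.Finite)} := by
  intro h
  obtain ⟨s, hs⟩ := Set.countable_iff_exists_subset_range.1 h
  obtain ⟨ξ, h0, h2⟩ := Pool.Agent.MP_b86f6c_nt.all_small n₀ h₀ τ hτ w h1 hm hb s
  obtain ⟨i, hi⟩ := hs h2
  exact h0 i hi.symm

end Pool.Agent.Results.MP_b86f6c_nt.FreeStart
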